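import Pool.Agent.helper24.SK.Spec

/-!
# Project sk, row BLK: one block
-/

set_option autoImplicit false

namespace Pool.Agent.SK

open Finset ArithmeticFunction MeasureTheory
open Pool.Agent.CH (nit DPb Win Tset ph)
open Pool.Agent.EC (tri vN fN XN TL AdT)
open Pool.Agent.helper85.BVP (tau)
open GD (ks)

/-! ### Large `N` -/

private theorem BLK_ev (s C : ℝ) (hs : 0 < s) : ∃ N₀ : ℕ, ∀ N : ℕ, N₀ ≤ N → C ≤ (N : ℝ) ^ s := by
  have h : Filter.Tendsto (fun N : ℕ => (N : ℝ) ^ s) Filter.atTop Filter.atTop :=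
    (tendsto_rpow_atTop hs).comp tendsto_natCast_atTop_atTop
  obtain ⟨N₀, h⟩ := Filter.eventually_atTop.1 (h.eventually_ge_atTop C)
  exact ⟨N₀, h⟩

private theorem BLK_evl (C : ℝ) : ∃ N₀ : ℕ, ∀ N : ℕ, N₀ ≤ N → C ≤ Real.log N := by
  have h : Filter.Tendsto (fun N : ℕ => Real.log (N : ℝ)) Filter.atTop Filter.atTop :=
    Real.tendsto_log_atTop.comp tendsto_natCast_atTop_atTop
  obtain ⟨N₀, h⟩ := Filter.eventually_atTop.1 (h.eventually_ge_atTop C)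
  exact ⟨N₀, h⟩

/-! ### The factors -/

private theorem BLK_kind {r : ℕ} (N z X : ℕ) (a b : Fin r → ℝ) (i : ℕ) (k : Fin (r + 2 * i)) :
    (∃ h : (k : ℕ) < r, uu N z X a b i k = cel ((N : ℝ) ^ a ⟨k, h⟩) ((N : ℝ) ^ b ⟨k, h⟩)) ∨
      (r ≤ (k : ℕ) ∧ (uu N z X a b i k = muz z ∨ uu N z X a b i k = sml X 0 ∨
        uu N z X a b i k = sml X 1)) := by
  unfold uu
  by_cases h : (k : ℕ) < r
  · rw [dif_pos h]
    exact Or.inl ⟨h, rfl⟩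
  · rw [dif_neg h]
    refine Or.inr ⟨by omega, ?_⟩
    split_ifs
    · exact Or.inl rfl
    · exact Or.inr (Or.inl rfl)
    · exact Or.inr (Or.inr rfl)

private theorem BLK_spk {r : ℕ} (N z X : ℕ) (a b : Fin r → ℝ) (i : ℕ) (k : Fin (r + 2 * i)) :
    (∃ z', uu N z X a b i k = muz z') ∨ (∃ X', uu N z X a b i k = sml X' 0) ∨
      (∃ X', uu N z X a b i k = sml X' 1) ∨ ∃ a' b' : ℝ, uu N z X a b i k = cel a' b' := by
  rcases BLK_kind N z X a b i k with ⟨h, e⟩ | ⟨-, e | e | e⟩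
  · exact Or.inr (Or.inr (Or.inr ⟨_, _, e⟩))
  · exact Or.inl ⟨_, e⟩
  · exact Or.inr (Or.inl ⟨_, e⟩)
  · exact Or.inr (Or.inr (Or.inl ⟨_, e⟩))

private theorem BLK_cel (a b : ℝ) (m : ℕ) : |cel a b m| ≤ 1 ∧ (cel a b m ≠ 0 → a ≤ (m : ℝ) ∧ (m : ℝ) < b) := by
  have e : cel a b m = if m.Prime ∧ a ≤ (m : ℝ) ∧ (m : ℝ) < b then 1 else 0 := rfl
  rw [e]
  split_ifs with h
  · exact ⟨by norm_num, fun _ => h.2⟩
  · exact ⟨by norm_num, fun h => absurd rfl h⟩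

private theorem BLK_muz (z m : ℕ) : |muz z m| ≤ 1 ∧ (muz z m ≠ 0 → m ≤ z) := by
  have e : muz z m = if m ≤ z then ((moebius m : ℤ) : ℝ) else 0 := rfl
  rw [e]
  split_ifs with h
  · refine ⟨?_, fun _ => h⟩
    have h1 : |moebius m| ≤ 1 := abs_moebius_le_one
    exact_mod_cast h1
  · exact ⟨by norm_num, fun h => absurd rfl h⟩

private theorem BLK_sml (X h m : ℕ) (hh : h ≤ 1) :
    |sml X h m| ≤ 1 + Real.log X ∧ (sml X h m ≠ 0 → m ≤ X) := by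
  have e : sml X h m = if 1 ≤ m ∧ m ≤ X then Real.log m ^ h else 0 := rfl
  have hX : 0 ≤ Real.log (X : ℝ) := Real.log_natCast_nonneg X
  rw [e]
  split_ifs with h1
  · refine ⟨?_, fun _ => h1.2⟩
    have h2 : 0 ≤ Real.log (m : ℝ) := Real.log_natCast_nonneg m
    have h3 : Real.log (m : ℝ) ≤ Real.log (X : ℝ) :=
      Real.log_le_log (by exact_mod_cast h1.1) (by exact_mod_cast h1.2)
    interval_cases h
    · rw [pow_zero, abs_one]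
      linarith
    · rw [pow_one, abs_of_nonneg h2]
      linarith
  · refine ⟨?_, fun h => absurd rfl h⟩
    rw [abs_zero]
    linarith

private theorem BLK_abs {r : ℕ} (N z X : ℕ) (a b : Fin r → ℝ) (i : ℕ) (k : Fin (r + 2 * i)) (m : ℕ) :
    |uu N z X a b i k m| ≤ 1 + Real.log X := by
  have hX : 0 ≤ Real.log (X : ℝ) := Real.log_natCast_nonneg X
  rcases BLK_kind N z X a b i k with ⟨h, e⟩ | ⟨-, e | e | e⟩
  · rw [e]
    have := (BLK_cel ((N : ℝ) ^ a ⟨k, h⟩) ((N : ℝ) ^ b ⟨k, h⟩) m).1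
    linarith
  · rw [e]
    have := (BLK_muz z m).1
    linarith
  · rw [e]
    exact (BLK_sml X 0 m (by norm_num)).1
  · rw [e]
    exact (BLK_sml X 1 m le_rfl).1

private theorem BLK_logX {N : ℕ} (hN : 1 ≤ N) : Real.log (YN N) ≤ 101 / 100 * Real.log N := by
  have hN1 : (1 : ℝ) ≤ (N : ℝ) := by exact_mod_cast hN
  have h1 : ((YN N : ℕ) : ℝ) ≤ (N : ℝ) ^ (101 / 100 : ℝ) := Nat.floor_le (by positivity)
  have h2 : 0 < YN N := by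
    unfold YN
    rw [Nat.floor_pos]
    exact Real.one_le_rpow hN1 (by norm_num)
  calc Real.log (YN N) ≤ Real.log ((N : ℝ) ^ (101 / 100 : ℝ)) :=
        Real.log_le_log (by exact_mod_cast h2) h1
    _ = 101 / 100 * Real.log N := Real.log_rpow (by linarith) _

private theorem BLK_coef {r : ℕ} {N : ℕ} (hN : 1 ≤ N) (hL : 3 ≤ Real.log N) (a b : Fin r → ℝ) (i : ℕ)
    (k : Fin (r + 2 * i)) {q : ℕ} (χ : DirichletCharacter ℂ q) (m : ℕ) :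
    ‖((uu N (zN N) (YN N) a b i k m : ℝ) : ℂ) * χ m‖ ≤ Real.log N ^ 2 := by
  have h1 := BLK_abs N (zN N) (YN N) a b i k m
  have h2 := BLK_logX hN
  have h3 : ‖χ (m : ZMod q)‖ ≤ 1 := DirichletCharacter.norm_le_one χ _
  rw [norm_mul, Complex.norm_real, Real.norm_eq_abs]
  calc |uu N (zN N) (YN N) a b i k m| * ‖χ (m : ZMod q)‖ ≤ |uu N (zN N) (YN N) a b i k m| * 1 :=
        mul_le_mul_of_nonneg_left h3 (abs_nonneg _)
    _ = |uu N (zN N) (YN N) a b i k m| := mul_one _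
    _ ≤ 1 + 101 / 100 * Real.log N := by linarith
    _ ≤ Real.log N ^ 2 := by nlinarith

/-! ### At least five long blocks -/

private theorem BLK_long (h1 : BL5_stmt) (h3 : SPK_stmt) (r : ℕ) (η : ℝ) (hη : 0 < η) (A Bq : ℕ) :
    ∃ B₁ N₀ : ℕ, ∀ B : ℕ, B₁ ≤ B → ∀ N : ℕ, N₀ ≤ N → ∀ (a b : Fin r → ℝ) (q : ℕ),
      1 ≤ q → (q : ℝ) ≤ Real.log N ^ Bq → ∀ χ : DirichletCharacter ℂ q, ∀ i ∈ Icc 1 7,
      ∀ e : Fin (r + 2 * i) → ℕ,
      N ^ 3 ≤ 2 ^ (r + 2 * i + 4) * ∏ k, 2 ^ e k → ∏ k, 2 ^ e k ≤ 8 * N ^ 3 →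
      (∀ k, ((2 ^ e k : ℕ) : ℝ) ≤ (N : ℝ) ^ (8 / 5 : ℝ)) →
      5 ≤ #(univ.filter fun k : Fin (r + 2 * i) => (N : ℝ) ^ η ≤ ((2 ^ e k : ℕ) : ℝ)) →
      ∫ t in Tset (1 / 200) B N, (∏ k, ‖DPb (2 ^ e k)
          (fun m => ((uu N (zN N) (YN N) a b i k m : ℝ) : ℂ) * χ m) t‖) * min 1 (8 * (N : ℝ) ^ 2 / t ^ 2) ≤
        (N : ℝ) ^ 3 / Real.log N ^ A := by
  have H1 : ∀ i : ℕ, ∃ A₁ N₀ : ℕ, ∀ N : ℕ, N₀ ≤ N → ∀ (B₁ : ℕ) (M : Fin (r + 2 * i) → ℕ)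
      (a : Fin (r + 2 * i) → ℕ → ℂ), (∀ i, 1 ≤ M i) → (∀ i m, m < 2 * M i → ‖a i m‖ ≤ Real.log N ^ 2) →
      N ^ 3 ≤ 2 ^ (r + 2 * i + 4) * ∏ i, M i → ∏ i, M i ≤ 8 * N ^ 3 →
      (∀ i, (M i : ℝ) ≤ (N : ℝ) ^ (8 / 5 : ℝ)) →
      5 ≤ #(univ.filter fun i : Fin (r + 2 * i) => (N : ℝ) ^ η ≤ M i) →
      (∀ i, (N : ℝ) ^ η ≤ M i → ∀ t ∈ Tset (1 / 200) B₁ N, ‖DPb (M i) (a i) t‖ ≤ M i / Real.log N ^ A₁) →
      ∫ t in Tset (1 / 200) B₁ N, (∏ i, ‖DPb (M i) (a i) t‖) * min 1 (8 * (N : ℝ) ^ 2 / t ^ 2) ≤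
        (N : ℝ) ^ 3 / Real.log N ^ A := fun i => h1 (r + 2 * i) 2 A η hη
  choose A₁ N₁ H1 using H1
  have H3 := fun i : ℕ => h3 (A₁ i) Bq η hη
  choose B₁ N₂ H3 using H3
  obtain ⟨N₃, hN₃⟩ := BLK_evl 3
  refine ⟨(Icc 1 7).sup B₁, max (max ((Icc 1 7).sup N₁) ((Icc 1 7).sup N₂)) (max N₃ 1), ?_⟩
  intro B hB N hN a b q hq hqL χ i hi e he1 he2 he3 he4
  have hNa : N₁ i ≤ N := ((Finset.le_sup (f := N₁) hi).trans (le_max_left _ _)).trans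
    ((le_max_left _ _).trans hN)
  have hNb : N₂ i ≤ N := ((Finset.le_sup (f := N₂) hi).trans (le_max_right _ _)).trans
    ((le_max_left _ _).trans hN)
  have hNc : N₃ ≤ N := (le_max_left _ _).trans ((le_max_right _ _).trans hN)
  have hN1 : 1 ≤ N := (le_max_right _ _).trans ((le_max_right _ _).trans hN)
  have hBi : B₁ i ≤ B := (Finset.le_sup (f := B₁) hi).trans hB
  have hL := hN₃ N hNc
  have hN1r : (1 : ℝ) ≤ (N : ℝ) := by exact_mod_cast hN1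
  refine H1 i N hNa B (fun k => 2 ^ e k) _ (fun k => Nat.one_le_two_pow)
    (fun k m _ => BLK_coef hN1 hL a b i k χ m) he1 he2 he3 he4 ?_
  intro k hk t ht
  refine H3 i N hNb q hq hqL χ _ (BLK_spk N (zN N) (YN N) a b i k) (2 ^ e k) hk ?_ t ?_ ?_
  · have h5 : (2 ^ e k : ℕ) ≤ ∏ k, 2 ^ e k :=
      Finset.single_le_prod' (f := fun k => 2 ^ e k) (fun k _ => Nat.one_le_two_pow) (Finset.mem_univ k)
    have h6 : 8 * N ^ 3 ≤ 64 * N ^ 3 := Nat.mul_le_mul_right _ (by norm_num)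
    exact (h5.trans he2).trans h6
  · exact (pow_le_pow_right₀ (by linarith) hBi).trans ht.1
  · refine ht.2.trans ?_
    have h7 : (N : ℝ) ^ (2 : ℝ) = (N : ℝ) ^ 2 := by norm_num
    rw [← h7]
    exact Real.rpow_le_rpow_of_exponent_le hN1r (by norm_num)

/-! ### Vanishing -/

private theorem BLK_van {R : ℕ} (M : Fin R → ℕ) (a : Fin R → ℕ → ℂ) (k : Fin R)
    (h : ∀ m ∈ Ico (M k) (2 * M k), a k m = 0) (S : Set ℝ) (g : ℝ → ℝ) :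
    ∫ t in S, (∏ i, ‖DPb (M i) (a i) t‖) * g t = 0 := by
  have h0 : ∀ t, (∏ i, ‖DPb (M i) (a i) t‖) * g t = 0 := by
    intro t
    have h1 : DPb (M k) (a k) t = 0 := by
      unfold DPb
      apply Finset.sum_eq_zero
      intro m hm
      rw [h m hm, zero_mul]
    have h2 : ∏ i, ‖DPb (M i) (a i) t‖ = 0 :=
      Finset.prod_eq_zero (Finset.mem_univ k) (by rw [h1, norm_zero])
    rw [h2, zero_mul]
  simp only [h0, integral_zero]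

/-! ### The integral without the weight -/

private theorem BLK_cont (M : ℕ) (a : ℕ → ℂ) : Continuous (DPb M a) := by
  unfold DPb nit
  fun_prop

private theorem BLK_cpt (ε : ℝ) (B N : ℕ) : IsCompact (Tset ε B N) := by
  have h : Tset ε B N = Set.Icc (-(N : ℝ) ^ (1 + 2 * ε)) ((N : ℝ) ^ (1 + 2 * ε)) ∩
      {t : ℝ | Real.log N ^ B ≤ |t|} := by
    ext t
    unfold Tset
    simp only [Set.mem_ofPred_eq, Set.mem_inter_iff, Set.mem_Icc, abs_le]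
    tauto
  rw [h]
  exact isCompact_Icc.inter_right (isClosed_le continuous_const continuous_abs)

private theorem BLK_drop {R : ℕ} (M : Fin R → ℕ) (a : Fin R → ℕ → ℂ) (B N : ℕ) :
    ∫ t in Tset (1 / 200) B N, (∏ i, ‖DPb (M i) (a i) t‖) * min 1 (8 * (N : ℝ) ^ 2 / t ^ 2) ≤
      ∫ t in Tset (1 / 200) B N, ∏ i, ‖DPb (M i) (a i) t‖ := by
  have hc : Continuous (fun t => ∏ i, ‖DPb (M i) (a i) t‖) :=
    continuous_finsetProd _ fun i _ => (BLK_cont (M i) (a i)).norm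
  have h0 : ∀ t, 0 ≤ ∏ i, ‖DPb (M i) (a i) t‖ := fun t => Finset.prod_nonneg fun i _ => norm_nonneg _
  apply integral_mono_of_nonneg
  · exact Filter.Eventually.of_forall fun t => mul_nonneg (h0 t) (le_min zero_le_one (by positivity))
  · exact hc.continuousOn.integrableOn_compact (BLK_cpt _ _ _)
  · exact Filter.Eventually.of_forall fun t => mul_le_of_le_one_right (h0 t) (min_le_left _ _)

/-! ### Sizes -/

private theorem BLK_nc {r : ℕ} {N : ℕ} (a b : Fin r → ℝ) (i : ℕ) (k : Fin (r + 2 * i)) (hk : r ≤ (k : ℕ))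
    {M m : ℕ} (hm : M ≤ m) (hne : uu N (zN N) (YN N) a b i k m ≠ 0) :
    (M : ℝ) ≤ 4 * (N : ℝ) ^ (3 / 7 : ℝ) ∨ ((M : ℝ) ≤ (N : ℝ) ^ (101 / 100 : ℝ) ∧
      ∃ h : ℕ, h ≤ 1 ∧ uu N (zN N) (YN N) a b i k = sml (YN N) h) := by
  have hY : ((YN N : ℕ) : ℝ) ≤ (N : ℝ) ^ (101 / 100 : ℝ) := Nat.floor_le (by positivity)
  have hz : ((zN N : ℕ) : ℝ) ≤ 4 * (N : ℝ) ^ (3 / 7 : ℝ) := Nat.floor_le (by positivity)
  have hmr : (M : ℝ) ≤ (m : ℝ) := by exact_mod_cast hm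
  rcases BLK_kind N (zN N) (YN N) a b i k with ⟨h, e⟩ | ⟨-, e | e | e⟩
  · omega
  · rw [e] at hne
    have h1 : (m : ℝ) ≤ (zN N : ℝ) := by exact_mod_cast (BLK_muz _ _).2 hne
    exact Or.inl (hmr.trans (h1.trans hz))
  · rw [e] at hne
    have h1 : (m : ℝ) ≤ (YN N : ℝ) := by exact_mod_cast (BLK_sml _ 0 _ (by norm_num)).2 hne
    exact Or.inr ⟨hmr.trans (h1.trans hY), 0, by norm_num, e⟩
  · rw [e] at hne
    have h1 : (m : ℝ) ≤ (YN N : ℝ) := by exact_mod_cast (BLK_sml _ 1 _ le_rfl).2 hne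
    exact Or.inr ⟨hmr.trans (h1.trans hY), 1, le_rfl, e⟩

private theorem BLK_prod {R : ℕ} (hR : R ≤ 14) (M : Fin R → ℕ) (M₀ x : ℝ) (hx : 1 ≤ x) (hM₀ : 1 ≤ M₀)
    (hM : ∀ k, (M k : ℝ) ≤ M₀) (hc : #(univ.filter fun k : Fin R => x ≤ (M k : ℝ)) ≤ 4) :
    ∏ k, (M k : ℝ) ≤ M₀ ^ 4 * x ^ 14 := by
  have h1 : ∏ k, (M k : ℝ) ≤ ∏ k, (if x ≤ (M k : ℝ) then M₀ else x) := by
    apply Finset.prod_le_prod
    · intro k _
      positivity
    · intro k _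
      split_ifs with h
      · exact hM k
      · exact (not_le.1 h).le
  refine h1.trans ?_
  rw [Finset.prod_ite, Finset.prod_const, Finset.prod_const]
  apply mul_le_mul
  · exact pow_le_pow_right₀ hM₀ hc
  · refine pow_le_pow_right₀ hx ?_
    refine (Finset.card_le_univ _).trans ?_
    rw [Fintype.card_fin]
    exact hR
  · positivity
  · positivity

/-! ### No prime variable -/

private theorem BLK_r0 (h1 : BL5_stmt) (h2 : BL4_stmt) (h3 : SPK_stmt) (h4 : VDK_stmt) (A Bq : ℕ) :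
    ∃ B₁ N₀ : ℕ, ∀ N : ℕ, N₀ ≤ N → ∀ (a b : Fin 0 → ℝ) (q : ℕ),
      1 ≤ q → (q : ℝ) ≤ Real.log N ^ Bq → ∀ χ : DirichletCharacter ℂ q, ∀ i ∈ Icc 1 7,
      ∀ e : Fin (0 + 2 * i) → ℕ,
      N ^ 3 ≤ 2 ^ (0 + 2 * i + 4) * ∏ k, 2 ^ e k → ∏ k, 2 ^ e k ≤ 8 * N ^ 3 →
      ∫ t in Tset (1 / 200) B₁ N, (∏ k, ‖DPb (2 ^ e k)
          (fun m => ((uu N (zN N) (YN N) a b i k m : ℝ) : ℂ) * χ m) t‖) * min 1 (8 * (N : ℝ) ^ 2 / t ^ 2) ≤
        (N : ℝ) ^ 3 / Real.log N ^ A := by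
  obtain ⟨B₁, N₁, HL⟩ := BLK_long h1 h3 0 (1 / 1000) (by norm_num) A Bq
  obtain ⟨B₂, H2⟩ := h2 A (Bq + 3)
  obtain ⟨N₂, H2⟩ := H2 (max B₁ B₂) (le_max_right _ _)
  obtain ⟨C, hC, H4⟩ := h4
  obtain ⟨N₃, hN₃⟩ := BLK_evl (5 * C + 20)
  refine ⟨max B₁ B₂, max (max N₁ N₂) (max N₃ (2 ^ 26 + 1)), ?_⟩
  intro N hN a b q hq hqL χ i hi e he1 he2
  have hNa : N₁ ≤ N := ((le_max_left _ _).trans (le_max_left _ _)).trans hN
  have hNb : N₂ ≤ N := ((le_max_right _ _).trans (le_max_left _ _)).trans hN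
  have hNc : N₃ ≤ N := ((le_max_left _ _).trans (le_max_right _ _)).trans hN
  have hNd : 2 ^ 26 + 1 ≤ N := ((le_max_right _ _).trans (le_max_right _ _)).trans hN
  have hL := hN₃ N hNc
  have hN1 : 1 ≤ N := by omega
  have hN1r : (1 : ℝ) ≤ (N : ℝ) := by exact_mod_cast hN1
  have hN0r : (0 : ℝ) < (N : ℝ) := by linarith
  have hi' := Finset.mem_Icc.1 hi
  by_cases hv : ∃ k, ∀ m ∈ Ico (2 ^ e k) (2 * 2 ^ e k),
      ((uu N (zN N) (YN N) a b i k m : ℝ) : ℂ) * χ m = 0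
  · obtain ⟨k, hk⟩ := hv
    refine le_trans (le_of_eq (BLK_van (fun k => 2 ^ e k)
      (fun k m => ((uu N (zN N) (YN N) a b i k m : ℝ) : ℂ) * χ m) k hk _
      (fun t => min 1 (8 * (N : ℝ) ^ 2 / t ^ 2)))) ?_
    have : 0 < Real.log N := by linarith
    positivity
  push Not at hv
  have hs : ∀ k, ((2 ^ e k : ℕ) : ℝ) ≤ 4 * (N : ℝ) ^ (3 / 7 : ℝ) ∨ (((2 ^ e k : ℕ) : ℝ) ≤ (N : ℝ) ^ (101 / 100 : ℝ) ∧
      ∃ h : ℕ, h ≤ 1 ∧ uu N (zN N) (YN N) a b i k = sml (YN N) h) := by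
    intro k
    obtain ⟨m, hm, hne⟩ := hv k
    refine BLK_nc a b i k (Nat.zero_le _) (Finset.mem_Ico.1 hm).1 ?_
    intro h0
    apply hne
    rw [h0]
    simp
  have hzY : 4 * (N : ℝ) ^ (3 / 7 : ℝ) ≤ (N : ℝ) ^ (101 / 100 : ℝ) := by
    have h5 : (4 : ℝ) ≤ (N : ℝ) ^ (1 / 2 : ℝ) := by
      rw [← Real.sqrt_eq_rpow]
      apply Real.le_sqrt_of_sq_le
      have : (2 ^ 26 + 1 : ℝ) ≤ (N : ℝ) := by exact_mod_cast hNd
      norm_num at this ⊢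
      linarith
    calc 4 * (N : ℝ) ^ (3 / 7 : ℝ) ≤ (N : ℝ) ^ (1 / 2 : ℝ) * (N : ℝ) ^ (3 / 7 : ℝ) :=
          mul_le_mul_of_nonneg_right h5 (by positivity)
      _ = (N : ℝ) ^ (1 / 2 + 3 / 7 : ℝ) := (Real.rpow_add hN0r _ _).symm
      _ ≤ (N : ℝ) ^ (101 / 100 : ℝ) := Real.rpow_le_rpow_of_exponent_le hN1r (by norm_num)
  have hM : ∀ k, ((2 ^ e k : ℕ) : ℝ) ≤ (N : ℝ) ^ (101 / 100 : ℝ) := by
    intro k
    rcases hs k with h | h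
    · exact h.trans hzY
    · exact h.1
  by_cases hc : 5 ≤ #(univ.filter fun k : Fin (0 + 2 * i) => (N : ℝ) ^ (1 / 1000 : ℝ) ≤ ((2 ^ e k : ℕ) : ℝ))
  · exact HL _ (le_max_left _ _) N hNa a b q hq hqL χ i hi e he1 he2
      (fun k => (hM k).trans (Real.rpow_le_rpow_of_exponent_le hN1r (by norm_num))) hc
  have hc4 : #(univ.filter fun k : Fin (0 + 2 * i) => (N : ℝ) ^ (1 / 1000 : ℝ) ≤ ((2 ^ e k : ℕ) : ℝ)) ≤ 4 := by
    omega
  have : Nonempty (Fin (0 + 2 * i)) := ⟨⟨0, by omega⟩⟩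
  obtain ⟨k₀, hk₀⟩ := Finite.exists_max (fun k => 2 ^ e k)
  have hk₀r : ∀ k, ((2 ^ e k : ℕ) : ℝ) ≤ ((2 ^ e k₀ : ℕ) : ℝ) := fun k => by exact_mod_cast hk₀ k
  have hM₀ : (1 : ℝ) ≤ ((2 ^ e k₀ : ℕ) : ℝ) := by exact_mod_cast Nat.one_le_two_pow
  have hk₀u : ∃ h : ℕ, h ≤ 1 ∧ uu N (zN N) (YN N) a b i k₀ = sml (YN N) h := by
    rcases hs k₀ with h | h
    · exfalso
      have hx : (1 : ℝ) ≤ (N : ℝ) ^ (1 / 1000 : ℝ) := Real.one_le_rpow hN1r (by norm_num)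
      have h5 := BLK_prod (by omega) (fun k => 2 ^ e k) ((2 ^ e k₀ : ℕ) : ℝ) _ hx hM₀ hk₀r hc4
      have h6 : (N : ℝ) ^ 3 ≤ 2 ^ (0 + 2 * i + 4) * ∏ k, ((2 ^ e k : ℕ) : ℝ) := by
        exact_mod_cast he1
      have h7 : (2 : ℝ) ^ (0 + 2 * i + 4) ≤ 2 ^ 18 := pow_le_pow_right₀ (by norm_num) (by omega)
      have h8 : ((2 ^ e k₀ : ℕ) : ℝ) ^ 4 ≤ (4 * (N : ℝ) ^ (3 / 7 : ℝ)) ^ 4 :=
        pow_le_pow_left₀ (by positivity) h 4
      have h9 : ((N : ℝ) ^ (3 / 7 : ℝ)) ^ 4 = (N : ℝ) ^ (12 / 7 : ℝ) := by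
        rw [← Real.rpow_mul_natCast hN0r.le]
        norm_num
      have h10 : ((N : ℝ) ^ (1 / 1000 : ℝ)) ^ 14 = (N : ℝ) ^ (14 / 1000 : ℝ) := by
        rw [← Real.rpow_mul_natCast hN0r.le]
        norm_num
      have h11 : (N : ℝ) ^ (12 / 7 : ℝ) * (N : ℝ) ^ (14 / 1000 : ℝ) ≤ (N : ℝ) ^ 2 := by
        rw [← Real.rpow_add hN0r]
        have : (N : ℝ) ^ (2 : ℝ) = (N : ℝ) ^ 2 := by norm_num
        rw [← this]
        exact Real.rpow_le_rpow_of_exponent_le hN1r (by norm_num)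
      have h12 : (N : ℝ) ^ 3 ≤ 2 ^ 26 * (N : ℝ) ^ 2 := by
        calc (N : ℝ) ^ 3 ≤ 2 ^ (0 + 2 * i + 4) * ∏ k, ((2 ^ e k : ℕ) : ℝ) := h6
          _ ≤ 2 ^ 18 * (((2 ^ e k₀ : ℕ) : ℝ) ^ 4 * ((N : ℝ) ^ (1 / 1000 : ℝ)) ^ 14) :=
              mul_le_mul h7 h5 (Finset.prod_nonneg fun k _ => by positivity) (by positivity)
          _ ≤ 2 ^ 18 * ((4 * (N : ℝ) ^ (3 / 7 : ℝ)) ^ 4 * ((N : ℝ) ^ (1 / 1000 : ℝ)) ^ 14) :=
              mul_le_mul_of_nonneg_left (mul_le_mul_of_nonneg_right h8 (by positivity)) (by positivity)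
          _ = 2 ^ 26 * ((N : ℝ) ^ (12 / 7 : ℝ) * (N : ℝ) ^ (14 / 1000 : ℝ)) := by
              rw [mul_pow, h9, h10]
              ring
          _ ≤ 2 ^ 26 * (N : ℝ) ^ 2 := mul_le_mul_of_nonneg_left h11 (by positivity)
      have h13 : (2 ^ 26 + 1 : ℝ) ≤ (N : ℝ) := by exact_mod_cast hNd
      have h14 : 0 < (N : ℝ) ^ 2 := by positivity
      nlinarith
    · exact h.2
  obtain ⟨h, hh, hu⟩ := hk₀u
  refine le_trans (BLK_drop (fun k => 2 ^ e k)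
    (fun k m => ((uu N (zN N) (YN N) a b i k m : ℝ) : ℂ) * χ m) _ N) ?_
  have hL1 : 1 ≤ Real.log N := by linarith
  refine H2 N hNb (0 + 2 * i) (by omega) (fun k => 2 ^ e k) _ k₀ (fun k => Nat.one_le_two_pow)
    (fun k m _ => (BLK_coef hN1 (by linarith) a b i k χ m).trans
      (pow_le_pow_right₀ hL1 (by omega))) he1 he2 hM hc4 hk₀ ?_
  intro t ht
  have h5 := H4 q hq χ (YN N) h (2 ^ e k₀) t hh Nat.one_le_two_pow ht
  rw [← hu] at h5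
  refine h5.trans (mul_le_mul_of_nonneg_right ?_ (by positivity))
  have h6 : (2 ^ e k₀ : ℕ) ≤ 8 * N ^ 3 :=
    (Finset.single_le_prod' (f := fun k => 2 ^ e k) (fun k _ => Nat.one_le_two_pow)
      (Finset.mem_univ k₀)).trans he2
  have h7 : 2 * ((2 ^ e k₀ : ℕ) : ℝ) ≤ 16 * (N : ℝ) ^ 3 := by
    have : ((2 ^ e k₀ : ℕ) : ℝ) ≤ 8 * (N : ℝ) ^ 3 := by exact_mod_cast h6
    linarith
  have h8 : Real.log (2 * ((2 ^ e k₀ : ℕ) : ℝ)) ≤ 3 + 3 * Real.log N := by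
    calc Real.log (2 * ((2 ^ e k₀ : ℕ) : ℝ)) ≤ Real.log (16 * (N : ℝ) ^ 3) :=
          Real.log_le_log (by positivity) h7
      _ = Real.log 16 + 3 * Real.log N := by
          rw [Real.log_mul (by norm_num) (by positivity), Real.log_pow]
          norm_num
      _ ≤ 3 + 3 * Real.log N := by
          have h16 : Real.log 16 = 4 * Real.log 2 := by
            rw [show (16 : ℝ) = 2 ^ 4 by norm_num, Real.log_pow]
            norm_num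
          have := Real.log_two_lt_d9
          rw [h16]
          linarith
  have hLB : 0 < Real.log N ^ Bq := pow_pos (by linarith) _
  have h9 : 0 ≤ 1 + Real.log (2 * ((2 ^ e k₀ : ℕ) : ℝ)) := by
    have : 0 ≤ Real.log (2 * ((2 ^ e k₀ : ℕ) : ℝ)) := Real.log_nonneg (by linarith)
    linarith
  calc C * q * (1 + Real.log (2 * ((2 ^ e k₀ : ℕ) : ℝ))) ≤ C * Real.log N ^ Bq * (5 * Real.log N) := by
        apply mul_le_mul
        · exact mul_le_mul_of_nonneg_left hqL hC.le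
        · linarith
        · exact h9
        · positivity
    _ = Real.log N ^ Bq * (Real.log N * (5 * C)) := by ring
    _ ≤ Real.log N ^ Bq * Real.log N ^ 3 := by
        apply mul_le_mul_of_nonneg_left _ hLB.le
        have h10 : 5 * C ≤ Real.log N ^ 2 := by nlinarith
        calc Real.log N * (5 * C) ≤ Real.log N * Real.log N ^ 2 :=
              mul_le_mul_of_nonneg_left h10 (by linarith)
          _ = Real.log N ^ 3 := by ring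
    _ = Real.log N ^ (Bq + 3) := by rw [pow_add]

/-! ### At least four prime variables -/

private theorem BLK_zY {N : ℕ} (hN : 16 ≤ N) : 4 * (N : ℝ) ^ (3 / 7 : ℝ) ≤ (N : ℝ) ^ (101 / 100 : ℝ) := by
  have hNr : (16 : ℝ) ≤ (N : ℝ) := by exact_mod_cast hN
  have hN1r : (1 : ℝ) ≤ (N : ℝ) := by linarith
  have hN0r : (0 : ℝ) < (N : ℝ) := by linarith
  have h5 : (4 : ℝ) ≤ (N : ℝ) ^ (1 / 2 : ℝ) := by
    rw [← Real.sqrt_eq_rpow]
    apply Real.le_sqrt_of_sq_le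
    norm_num
    linarith
  calc 4 * (N : ℝ) ^ (3 / 7 : ℝ) ≤ (N : ℝ) ^ (1 / 2 : ℝ) * (N : ℝ) ^ (3 / 7 : ℝ) :=
        mul_le_mul_of_nonneg_right h5 (by positivity)
    _ = (N : ℝ) ^ (1 / 2 + 3 / 7 : ℝ) := (Real.rpow_add hN0r _ _).symm
    _ ≤ (N : ℝ) ^ (101 / 100 : ℝ) := Real.rpow_le_rpow_of_exponent_le hN1r (by norm_num)

private theorem BLK_adt (h1 : BL5_stmt) (h3 : SPK_stmt) (r : ℕ) (a b : Fin r → ℝ) (hab : AdT a b)
    (A Bq : ℕ) : ∃ B₁ N₀ : ℕ, ∀ N : ℕ, N₀ ≤ N → ∀ q : ℕ,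
      1 ≤ q → (q : ℝ) ≤ Real.log N ^ Bq → ∀ χ : DirichletCharacter ℂ q, ∀ i ∈ Icc 1 7,
      ∀ e : Fin (r + 2 * i) → ℕ,
      N ^ 3 ≤ 2 ^ (r + 2 * i + 4) * ∏ k, 2 ^ e k → ∏ k, 2 ^ e k ≤ 8 * N ^ 3 →
      ∫ t in Tset (1 / 200) B₁ N, (∏ k, ‖DPb (2 ^ e k)
          (fun m => ((uu N (zN N) (YN N) a b i k m : ℝ) : ℂ) * χ m) t‖) * min 1 (8 * (N : ℝ) ^ 2 / t ^ 2) ≤
        (N : ℝ) ^ 3 / Real.log N ^ A := by
  obtain ⟨hr, hab', ha1, hb3⟩ := hab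
  have hne : (univ : Finset (Fin r)).Nonempty := ⟨⟨0, by omega⟩, mem_univ _⟩
  obtain ⟨μ, hμ0, hμa⟩ : ∃ μ : ℝ, 0 < μ ∧ ∀ k, μ ≤ a k :=
    ⟨(univ : Finset (Fin r)).inf' hne a, (Finset.lt_inf'_iff _).2 fun k _ => (hab' k).1,
      fun k => Finset.inf'_le _ (mem_univ k)⟩
  obtain ⟨κ, hκ⟩ : ∃ κ : ℝ, κ = 3 - ∑ k, b k := ⟨_, rfl⟩
  have hκ0 : 0 < κ := by linarith
  obtain ⟨η, hη, hημ, hηκ⟩ : ∃ η : ℝ, 0 < η ∧ η ≤ μ / 2 ∧ η ≤ κ / 16 :=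
    ⟨min (μ / 2) (κ / 16), lt_min (by linarith) (by linarith), min_le_left _ _, min_le_right _ _⟩
  obtain ⟨B₁, N₁, HL⟩ := BLK_long h1 h3 r η hη A Bq
  obtain ⟨N₂, hN₂⟩ := BLK_ev η 2 hη
  obtain ⟨N₃, hN₃⟩ := BLK_ev (κ / 8) (2 ^ (r + 18) + 1) (by positivity)
  obtain ⟨N₄, hN₄⟩ := BLK_evl 1
  refine ⟨B₁, max (max N₁ N₂) (max N₃ (max N₄ 16)), ?_⟩
  intro N hN q hq hqL χ i hi e he1 he2
  have hNa : N₁ ≤ N := ((le_max_left _ _).trans (le_max_left _ _)).trans hN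
  have hNb : N₂ ≤ N := ((le_max_right _ _).trans (le_max_left _ _)).trans hN
  have hNc : N₃ ≤ N := ((le_max_left _ _).trans (le_max_right _ _)).trans hN
  have hNd : N₄ ≤ N := (((le_max_left _ _).trans (le_max_right _ _)).trans (le_max_right _ _)).trans hN
  have hNe : 16 ≤ N := (((le_max_right _ _).trans (le_max_right _ _)).trans (le_max_right _ _)).trans hN
  have hL := hN₄ N hNd
  have h2η := hN₂ N hNb
  have hκ8 := hN₃ N hNc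
  have hNr : (16 : ℝ) ≤ (N : ℝ) := by exact_mod_cast hNe
  have hN1r : (1 : ℝ) ≤ (N : ℝ) := by linarith
  have hN0r : (0 : ℝ) < (N : ℝ) := by linarith
  have hi' := Finset.mem_Icc.1 hi
  by_cases hv : ∃ k, ∀ m ∈ Ico (2 ^ e k) (2 * 2 ^ e k),
      ((uu N (zN N) (YN N) a b i k m : ℝ) : ℂ) * χ m = 0
  · obtain ⟨k, hk⟩ := hv
    refine le_trans (le_of_eq (BLK_van (fun k => 2 ^ e k)
      (fun k m => ((uu N (zN N) (YN N) a b i k m : ℝ) : ℂ) * χ m) k hk _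
      (fun t => min 1 (8 * (N : ℝ) ^ 2 / t ^ 2)))) ?_
    have : 0 < Real.log N := by linarith
    positivity
  push Not at hv
  have hv' : ∀ k, ∃ m ∈ Ico (2 ^ e k) (2 * 2 ^ e k), uu N (zN N) (YN N) a b i k m ≠ 0 := by
    intro k
    obtain ⟨m, hm, hne⟩ := hv k
    refine ⟨m, hm, fun h0 => hne ?_⟩
    rw [h0]
    simp
  have hp : ∀ (k : Fin (r + 2 * i)) (h : (k : ℕ) < r), (N : ℝ) ^ a ⟨k, h⟩ ≤ 2 * ((2 ^ e k : ℕ) : ℝ) ∧
      ((2 ^ e k : ℕ) : ℝ) ≤ (N : ℝ) ^ b ⟨k, h⟩ := by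
    intro k h
    obtain ⟨m, hm, hne⟩ := hv' k
    have hm' := Finset.mem_Ico.1 hm
    rcases BLK_kind N (zN N) (YN N) a b i k with ⟨h', eq⟩ | ⟨h', -⟩
    · rw [eq] at hne
      have h5 := (BLK_cel _ _ _).2 hne
      have h6 : ((2 ^ e k : ℕ) : ℝ) ≤ (m : ℝ) := by exact_mod_cast hm'.1
      have h7 : (m : ℝ) ≤ 2 * ((2 ^ e k : ℕ) : ℝ) := by exact_mod_cast hm'.2.le
      exact ⟨h5.1.trans h7, h6.trans h5.2.le⟩
    · omega
  have hn : ∀ k : Fin (r + 2 * i), r ≤ (k : ℕ) → ((2 ^ e k : ℕ) : ℝ) ≤ (N : ℝ) ^ (101 / 100 : ℝ) := by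
    intro k hk
    obtain ⟨m, hm, hne⟩ := hv' k
    rcases BLK_nc a b i k hk (Finset.mem_Ico.1 hm).1 hne with h | h
    · exact h.trans (BLK_zY hNe)
    · exact h.1
  have hM : ∀ k, ((2 ^ e k : ℕ) : ℝ) ≤ (N : ℝ) ^ (8 / 5 : ℝ) := by
    intro k
    by_cases hk : (k : ℕ) < r
    · refine (hp k hk).2.trans (Real.rpow_le_rpow_of_exponent_le hN1r ?_)
      have := (hab' ⟨k, hk⟩).2
      linarith
    · exact (hn k (by omega)).trans (Real.rpow_le_rpow_of_exponent_le hN1r (by norm_num))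
  have hlp : ∀ k : Fin (r + 2 * i), (k : ℕ) < r → (N : ℝ) ^ η ≤ ((2 ^ e k : ℕ) : ℝ) := by
    intro k hk
    have h5 := (hp k hk).1
    have h6 : (N : ℝ) ^ η * (N : ℝ) ^ η ≤ (N : ℝ) ^ a ⟨k, hk⟩ := by
      rw [← Real.rpow_add hN0r]
      apply Real.rpow_le_rpow_of_exponent_le hN1r
      have := hμa ⟨k, hk⟩
      linarith
    have h7 : 2 * (N : ℝ) ^ η ≤ (N : ℝ) ^ η * (N : ℝ) ^ η :=
      mul_le_mul_of_nonneg_right h2η (by positivity)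
    linarith
  obtain ⟨j₁, hj₁⟩ : ∃ j : Fin (2 * i), (N : ℝ) ^ η ≤ ((2 ^ e (Fin.natAdd r j) : ℕ) : ℝ) := by
    by_contra hcon
    push Not at hcon
    have h5 : (N : ℝ) ^ 3 ≤ 2 ^ (r + 2 * i + 4) * ∏ k, ((2 ^ e k : ℕ) : ℝ) := by exact_mod_cast he1
    rw [Fin.prod_univ_add] at h5
    have h6 : ∏ j : Fin r, ((2 ^ e (Fin.castAdd (2 * i) j) : ℕ) : ℝ) ≤ (N : ℝ) ^ (∑ k, b k) := by
      rw [Real.rpow_sum_of_pos hN0r]
      apply Finset.prod_le_prod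
      · intro j _
        positivity
      · intro j _
        exact (hp (Fin.castAdd (2 * i) j) j.2).2
    have h7 : ∏ j : Fin (2 * i), ((2 ^ e (Fin.natAdd r j) : ℕ) : ℝ) ≤ (N : ℝ) ^ (7 * κ / 8) := by
      calc ∏ j : Fin (2 * i), ((2 ^ e (Fin.natAdd r j) : ℕ) : ℝ) ≤ ∏ _j : Fin (2 * i), (N : ℝ) ^ η :=
            Finset.prod_le_prod (fun j _ => by positivity) (fun j _ => (hcon j).le)
        _ = ((N : ℝ) ^ η) ^ (2 * i) := by rw [Finset.prod_const, Finset.card_univ, Fintype.card_fin]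
        _ ≤ ((N : ℝ) ^ η) ^ 14 := pow_le_pow_right₀ (by linarith) (by omega)
        _ = (N : ℝ) ^ (η * 14) := by
            rw [← Real.rpow_mul_natCast hN0r.le]
            norm_num
        _ ≤ (N : ℝ) ^ (7 * κ / 8) := Real.rpow_le_rpow_of_exponent_le hN1r (by linarith)
    have h8 : (2 : ℝ) ^ (r + 2 * i + 4) ≤ 2 ^ (r + 18) := pow_le_pow_right₀ (by norm_num) (by omega)
    have h9 : (N : ℝ) ^ 3 = (N : ℝ) ^ (∑ k, b k) * (N : ℝ) ^ (7 * κ / 8) * (N : ℝ) ^ (κ / 8) := by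
      rw [← Real.rpow_add hN0r, ← Real.rpow_add hN0r]
      have : ∑ k, b k + 7 * κ / 8 + κ / 8 = (3 : ℝ) := by rw [hκ]; ring
      rw [this]
      norm_num
    have h10 : (N : ℝ) ^ 3 ≤ 2 ^ (r + 18) * ((N : ℝ) ^ (∑ k, b k) * (N : ℝ) ^ (7 * κ / 8)) := by
      refine h5.trans ?_
      apply mul_le_mul h8 _ (by positivity) (by positivity)
      exact mul_le_mul h6 h7 (Finset.prod_nonneg fun j _ => by positivity) (by positivity)
    have h11 : 0 < (N : ℝ) ^ (∑ k, b k) * (N : ℝ) ^ (7 * κ / 8) := by positivity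
    rw [h9] at h10
    nlinarith
  have hc : 5 ≤ #(univ.filter fun k : Fin (r + 2 * i) => (N : ℝ) ^ η ≤ ((2 ^ e k : ℕ) : ℝ)) := by
    have h5 : insert (Fin.natAdd r j₁) (univ.map (Fin.castAddEmb (2 * i))) ⊆
        univ.filter fun k : Fin (r + 2 * i) => (N : ℝ) ^ η ≤ ((2 ^ e k : ℕ) : ℝ) := by
      intro k hk
      rw [Finset.mem_filter]
      refine ⟨Finset.mem_univ _, ?_⟩
      rcases Finset.mem_insert.1 hk with rfl | hk
      · exact hj₁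
      · obtain ⟨j, -, rfl⟩ := Finset.mem_map.1 hk
        exact hlp _ j.2
    have h6 : Fin.natAdd r j₁ ∉ univ.map (Fin.castAddEmb (n := r) (2 * i)) := by
      intro h
      obtain ⟨j, -, hj⟩ := Finset.mem_map.1 h
      have h7 := congrArg Fin.val hj
      have h8 := j.2
      simp at h7
      omega
    have h7 := Finset.card_le_card h5
    rw [Finset.card_insert_of_notMem h6, Finset.card_map, Finset.card_univ, Fintype.card_fin] at h7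
    omega
  exact HL B₁ le_rfl N hNa a b q hq hqL χ i hi e he1 he2 hM hc

/-- **BLK**: one block. -/
theorem BLK (h1 : BL5_stmt) (h2 : BL4_stmt) (h3 : SPK_stmt) (h4 : VDK_stmt) : BLK_stmt := by
  intro r a b hab A Bq
  rcases hab with h0 | hab
  · subst h0
    obtain ⟨B₁, N₀, H⟩ := BLK_r0 h1 h2 h3 h4 A Bq
    exact ⟨B₁, N₀, fun N hN => H N hN a b⟩
  · exact BLK_adt h1 h3 r a b hab A Bq

end Pool.Agent.SK
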